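import Pool.Agent.H41.Poly

set_option autoImplicit false

namespace Pool.Agent.Results.MP_90a930_lc.Disproof

open Pool.Agent.H41.Poly

/-- Negated form of Q1: an instance of poly density at most 5/6 with no feasible schedule. -/
theorem result : ∃ (n : ℕ) (G : SimpleGraph (Fin n)) (f : Sym2 (Fin n) → ℕ),
    G.edgeSet.Nonempty ∧ (∀ e ∈ G.edgeSet, 1 ≤ f e) ∧ polyDensity G f ≤ 5 / 6 ∧
      ¬ Schedulable G f :=
  ⟨8, G, f, ⟨E 0, (mem_edge _).2 ⟨0, rfl⟩⟩, fun e _ => f_pos e, density_le, not_sched⟩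

end Pool.Agent.Results.MP_90a930_lc.Disproof
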